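import Mathlib
import Pool.Agent.K3h4.H48.Val5

/-!
# `∑_{k<p} C(4k,2k+1) C(2k,k) / 48^k` is divisible by `p^2`

Full (positive) answer to Q1 of MP_37e900_nt.

Sketch of the proof. Let `f(u)` be the sum over `k < p` of
`2k ∏_{l<2k, l≠k} (2l+1-u) / ∏_{i<k} 4(1+i)(3(1+i)-u)`. It is an affine function of `u ∈ pZ_p` modulo
`p^2`, and its value at `u = 0` is the sum above. So twice the sum is three times `f(p)` minus `f(3p)`
modulo `p^2`. Both values are equal to zero: at `u = 2n+1` the terms with `k ≤ n/2` have a closed form,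
found by creative telescoping in steps of three; it is zero for `n = 1` modulo `3`, and for `2n+1 = p`
it is cancelled by the only other nonzero term `k = n`.
-/

set_option autoImplicit false

namespace Pool.Agent.Results.MP_37e900_nt.QuestionOne

open Finset Pool.Agent.R439.PL Pool.Agent.R439.PL.S4 Pool.Agent.R488.Tri Pool.Agent.R488.Cub Pool.Agent.K3h4.H48

/-- `x ≡ 0 (mod p^2)` for a rational number `x` with denominator prime to `p`: the denominator of `x` and
the denominator of `x / p^2` are prime to `p` (that is, `p^2` divides the numerator of `x`). -/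
def DivSq (p : ℕ) (x : ℚ) : Prop := ¬ p ∣ x.den ∧ ¬ p ∣ (x / (p : ℚ) ^ 2).den

/-- Full (positive) answer to Q1: for every prime `p > 3` the sum of `48^(-k) C(4k,2k+1) C(2k,k)` over
`0 ≤ k ≤ p - 1` is `0` modulo `p^2`. -/
theorem result (p : ℕ) (hp : p.Prime) (h3 : 3 < p) :
    DivSq p (∑ k ∈ range p, ((4 * k).choose (2 * k + 1) : ℚ) * ((2 * k).choose k : ℚ) / 48 ^ k) := by
  have : Fact p.Prime := ⟨hp⟩
  have h2 : p % 2 = 1 := by
    rcases hp.eq_two_or_odd with h | h
    · omega
    · exact h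
  have h3' : p % 3 ≠ 0 := fun h => by
    have := (Nat.prime_dvd_prime_iff_eq Nat.prime_three hp).1 (Nat.dvd_of_mod_eq_zero h)
    omega
  obtain ⟨n, hn⟩ : ∃ n, p = 2 * n + 1 := ⟨p / 2, by omega⟩
  have u2 : U p (2 : ℚ) := by exact_mod_cast U_nat (p := p) (k := 2) (by norm_num) (by omega)
  have h0 := interp13 (lin_AA (p := p) h3) u2
  have e1 : AA p p = 0 := by
    have : (p : ℚ) = 2 * (n : ℚ) + 1 := by rw [hn]; push_cast; ring
    rw [this]
    exact AA_1 hn (by omega) (by omega)
  have e3 : AA p (3 * p) = 0 := by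
    have : 3 * (p : ℚ) = 2 * ((3 * n + 1 : ℕ) : ℚ) + 1 := by rw [hn]; push_cast; ring
    rw [this, AA_3 (by omega) (by omega), Aval1]
  rw [e1, e3, AA_0] at h0
  norm_num at h0
  obtain ⟨h4, -, h5⟩ := h0
  rw [sub_zero] at h5
  refine ⟨?_, den_of_I h5⟩
  have := den_of_I (p := p) (k := 0) (I_zero_iff.2 h4)
  rwa [pow_zero, div_one] at this

end Pool.Agent.Results.MP_37e900_nt.QuestionOne
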